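import Pool.Agent.K9h58.MB.Main

set_option autoImplicit false

/-!
Homomorphisms of countable products of groups.
-/

namespace Pool.Agent.K9h58.MB

open Set Filter Topology
open Pool.Agent.H685R3

variable {G : ℕ → Type*} [∀ n, Group (G n)] {H : Type*} [Group H]

/-- the images of the elements supported by `A ∩ [m, ∞)` commute -/
def AbOn (φ : (∀ n, G n) →* H) (m : ℕ) (A : Set ℕ) : Prop :=
  ∀ a b : ∀ n, G n, (∀ n, (n < m ∨ n ∉ A) → a n = 1 ∧ b n = 1) → φ a * φ b = φ b * φ a

def GD (φ : (∀ n, G n) →* H) : Set (Set ℕ) := {A | ∃ m, AbOn φ m A}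

theorem tail_GD (φ : (∀ n, G n) →* H) : Tail (GD φ) where
  down := by
    rintro A ⟨m, hm⟩ B hBA
    refine ⟨m, fun a b hab => hm a b fun n hn => hab n ?_⟩
    exact hn.imp id fun h h' => h (hBA h')
  tail := by
    rintro A B hAB ⟨m, hm⟩
    obtain ⟨N, hN⟩ := eventually_atTop.1 hAB
    refine ⟨max m N, fun a b hab => hm a b fun n hn => hab n ?_⟩
    rcases hn with h | h
    · exact Or.inl (lt_of_lt_of_le h (le_max_left _ _))
    · by_cases hn : n < N
      · exact Or.inl (lt_of_lt_of_le hn (le_max_right _ _))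
      · exact Or.inr fun h' => h ((hN n (not_lt.1 hn)).2 h')

open Classical in
/-- the part of `a` on `A` -/
noncomputable def part (A : Set ℕ) (a : ∀ n, G n) : ∀ n, G n := fun n => if n ∈ A then a n else 1

theorem part_mul (A : Set ℕ) (a : ∀ n, G n) : part A a * part Aᶜ a = a := by
  funext n
  by_cases h : n ∈ A <;> simp [part, h]

theorem comm_of_disj (φ : (∀ n, G n) →* H) {a b : ∀ n, G n} (h : ∀ n, a n = 1 ∨ b n = 1) :
    Commute (φ a) (φ b) := by
  have h1 : Commute a b := by
    funext n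
    rcases h n with h | h <;> simp [h]
  exact h1.map φ

theorem case_compl (φ : (∀ n, G n) →* H) {A : Set ℕ} (h1 : A ∈ GD φ) (h2 : Aᶜ ∈ GD φ) :
    ∃ m, AbOn φ m univ := by
  obtain ⟨m, hm⟩ := h1
  obtain ⟨k, hk⟩ := h2
  refine ⟨max m k, fun a b hab => ?_⟩
  have ha : ∀ n, n < max m k → a n = 1 ∧ b n = 1 := fun n hn => hab n (Or.inl hn)
  have c1 : Commute (φ (part A a)) (φ (part A b)) := by
    refine hm _ _ fun n hn => ?_
    rcases hn with h | h
    · have := ha n (lt_of_lt_of_le h (le_max_left _ _))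
      simp [part, this.1, this.2]
    · simp [part, h]
  have c2 : Commute (φ (part Aᶜ a)) (φ (part Aᶜ b)) := by
    refine hk _ _ fun n hn => ?_
    rcases hn with h | h
    · have := ha n (lt_of_lt_of_le h (le_max_right _ _))
      simp [part, this.1, this.2]
    · simp only [mem_compl_iff, not_not] at h
      simp [part, h]
  have c3 : Commute (φ (part A a)) (φ (part Aᶜ b)) := comm_of_disj φ fun n => by
    by_cases h : n ∈ A <;> simp [part, h]
  have c4 : Commute (φ (part Aᶜ a)) (φ (part A b)) := comm_of_disj φ fun n => by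
    by_cases h : n ∈ A <;> simp [part, h]
  have key : Commute (φ a) (φ b) := by
    rw [← part_mul A a, ← part_mul A b, map_mul, map_mul]
    exact (c1.mul_left c4).mul_right (c3.mul_left c2)
  exact key

/-- `H` has elements `f S`, for the sets `S` of natural numbers, and `g j`, for the natural numbers
`j`, such that `f S` and `g j` commute if and only if `j ∉ S`. -/
def Wild (H : Type*) [Group H] : Prop :=
  ∃ (f : Set ℕ → H) (g : ℕ → H), ∀ S j, f S * g j = g j * f S ↔ j ∉ S

theorem case_disj (φ : (∀ n, G n) →* H) {A : ℕ → Set ℕ} (h1 : ∀ i j, i ≠ j → Disjoint (A i) (A j))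
    (h2 : ∀ j, A j ∉ GD φ) : Wild H := by
  classical
  have h3 : ∀ j, ∃ a b : ∀ n, G n, (∀ n, n ∉ A j → a n = 1 ∧ b n = 1) ∧
      ¬ Commute (φ a) (φ b) := by
    intro j
    have h4 : ¬ AbOn φ 0 (A j) := fun h => h2 j ⟨0, h⟩
    unfold AbOn at h4
    push Not at h4
    obtain ⟨a, b, h5, h6⟩ := h4
    exact ⟨a, b, fun n hn => h5 n (Or.inr hn), h6⟩
  choose a b hab hnc using h3
  let c : Set ℕ → ∀ n, G n := fun S n => if h : ∃ i ∈ S, n ∈ A i then a h.choose n else 1
  have hc : ∀ S i n, i ∈ S → n ∈ A i → c S n = a i n := by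
    intro S i n hi hn
    have h : ∃ i ∈ S, n ∈ A i := ⟨i, hi, hn⟩
    have h4 : h.choose = i := by
      by_contra hne
      exact Set.disjoint_left.1 (h1 _ _ hne) h.choose_spec.2 hn
    simp only [c, dif_pos h, h4]
  have hc0 : ∀ S n, (∀ i ∈ S, n ∉ A i) → c S n = 1 := by
    intro S n h
    have h' : ¬ ∃ i ∈ S, n ∈ A i := by
      rintro ⟨i, hi, hn⟩
      exact h i hi hn
    simp only [c, dif_neg h']
  refine ⟨fun S => φ (c S), fun j => φ (b j), fun S j => ?_⟩
  constructor
  · intro h hj
    -- `c S = a j * r` with `r` trivial on `A j`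
    have e1 : c S = a j * part (A j)ᶜ (c S) := by
      funext n
      by_cases hn : n ∈ A j
      · simp [part, hn, hc S j n hj hn]
      · simp [part, hn, (hab j n hn).1]
    have c1 : Commute (φ (part (A j)ᶜ (c S))) (φ (b j)) := comm_of_disj φ fun n => by
      by_cases hn : n ∈ A j
      · left
        simp [part, hn]
      · exact Or.inr (hab j n hn).2
    have c2 : Commute (φ (c S)) (φ (b j)) := h
    refine hnc j ?_
    have e2 : φ (a j) = φ (c S) * (φ (part (A j)ᶜ (c S)))⁻¹ := by
      conv_rhs => rw [e1]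
      rw [map_mul]
      have : part (A j)ᶜ (a j * part (A j)ᶜ (c S)) = part (A j)ᶜ (c S) := by rw [← e1]
      rw [this, mul_inv_cancel_right]
    rw [e2]
    exact c2.mul_left c1.inv_left
  · intro hj
    refine comm_of_disj φ fun n => ?_
    by_cases hn : n ∈ A j
    · left
      refine hc0 S n fun i hi hn' => ?_
      have : i ≠ j := fun h => hj (h ▸ hi)
      exact Set.disjoint_left.1 (h1 _ _ this) hn' hn
    · exact Or.inr (hab j n hn).2

theorem dichotomy (φ : (∀ n, G n) →* H)
    (hdet : ∀ σ, Determined (Pool.Agent.W885.TD.sat (Out (GD φ)) (Pool.Agent.W885.TD.cc σ))) :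
    (∃ m, AbOn φ m univ) ∨ Wild H := by
  rcases main (tail_GD φ) hdet with ⟨A, h1, h2⟩ | ⟨A, h1, h2⟩
  · exact Or.inl (case_compl φ h1 h2)
  · exact Or.inr (case_disj φ h1 h2)

theorem wild_card (h : Wild H) : ∃ f : Set ℕ → H, Function.Injective f := by
  obtain ⟨f, g, hfg⟩ := h
  refine ⟨f, fun S T hST => ?_⟩
  ext j
  have h1 := hfg S j
  have h2 := hfg T j
  rw [hST] at h1
  have h3 : j ∉ S ↔ j ∉ T := h1.symm.trans h2
  exact not_iff_not.1 h3

theorem wild_centralizers (h : Wild H) : ∃ g : ℕ → H, ∀ n, ∃ x : H,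
    (∀ i < n, x * g i = g i * x) ∧ x * g n ≠ g n * x := by
  obtain ⟨f, g, hfg⟩ := h
  refine ⟨g, fun n => ⟨f {n}, fun i hi => (hfg {n} i).2 ?_, fun h => (hfg {n} n).1 h rfl⟩⟩
  simp only [mem_singleton_iff]
  omega

theorem not_wild_units (k R : Type*) [Field k] [Ring R] [Algebra k R] [FiniteDimensional k R] :
    ¬ Wild Rˣ := by
  intro h
  obtain ⟨g, hg⟩ := wild_centralizers h
  let C : ℕ → Submodule k R := fun n =>
    { carrier := {x | ∀ i < n, x * (g i : R) = (g i : R) * x}
      add_mem' := by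
        intro x y hx hy i hi
        rw [add_mul, mul_add, hx i hi, hy i hi]
      zero_mem' := by
        intro i _
        simp
      smul_mem' := by
        intro c x hx i hi
        rw [smul_mul_assoc, mul_smul_comm, hx i hi] }
  have hanti : Antitone C := fun m n hmn x hx i hi => hx i (lt_of_lt_of_le hi hmn)
  let Co : ℕ →o (Submodule k R)ᵒᵈ := ⟨fun n => OrderDual.toDual (C n), fun m n hmn => hanti hmn⟩
  obtain ⟨n, hn⟩ := WellFoundedGT.monotone_chain_condition Co
  have h1 : C n = C (n + 1) := by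
    have := hn (n + 1) (Nat.le_succ n)
    exact this
  obtain ⟨x, hx1, hx2⟩ := hg n
  have h2 : (x : R) ∈ C n := by
    intro i hi
    have := hx1 i hi
    exact_mod_cast congrArg (Units.val) this
  rw [h1] at h2
  exact hx2 (Units.ext (by simpa using h2 n (Nat.lt_succ_self n)))

/-- every element of `G` is a product of `w` commutators -/
def Width (w : ℕ) (G : Type*) [Group G] : Prop :=
  ∀ a : G, ∃ x y : Fin w → G, a = (List.ofFn fun i => x i * y i * (x i)⁻¹ * (y i)⁻¹).prod

theorem trivial_of_width (φ : (∀ n, G n) →* H) {m w : ℕ} (h : AbOn φ m univ)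
    (hw : ∀ n, Width w (G n)) (a : ∀ n, G n) (ha : ∀ n < m, a n = 1) : φ a = 1 := by
  classical
  choose x y hxy using fun n => hw n (a n)
  let X : Fin w → ∀ n, G n := fun i n => if n < m then 1 else x n i
  let Y : Fin w → ∀ n, G n := fun i n => if n < m then 1 else y n i
  have h1 : a = (List.ofFn fun i => X i * Y i * (X i)⁻¹ * (Y i)⁻¹).prod := by
    funext n
    rw [Pi.list_prod_apply]
    rw [List.map_ofFn]
    by_cases hn : n < m
    · rw [ha n hn]
      have : ((fun f : ∀ n, G n => f n) ∘ fun i => X i * Y i * (X i)⁻¹ * (Y i)⁻¹) =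
          fun _ => (1 : G n) := by
        funext i
        simp [X, Y, hn]
      rw [this]
      simp
    · rw [hxy n]
      congr 2
      funext i
      simp [X, Y, hn]
  rw [h1, map_list_prod, List.map_ofFn]
  have : (φ ∘ fun i => X i * Y i * (X i)⁻¹ * (Y i)⁻¹) = fun _ => (1 : H) := by
    funext i
    have h2 : φ (X i) * φ (Y i) = φ (Y i) * φ (X i) := by
      refine h _ _ fun n hn => ?_
      have hn' : n < m := by
        rcases hn with h | h
        · exact h
        · exact absurd (mem_univ n) h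
      simp [X, Y, hn']
    simp only [Function.comp, map_mul, map_inv]
    rw [h2]
    group
  rw [this]
  simp

end Pool.Agent.K9h58.MB
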