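import Pool.Agent.W885.TD.Main
import Pool.Agent.Y576.TD.Gen
import Pool.Agent.TH774.KP.Part

set_option autoImplicit false

/-!
Downward closed tail sets of sets of natural numbers with the property of Baire: either some set
and its complement are in it, or there are infinitely many pairwise disjoint sets outside of it.
-/

namespace Pool.Agent.K9h58.MB

open Set Filter Topology
open Pool.Agent.H685R3 Pool.Agent.TH774.KP

/-- an interval partition all of whose infinite unions are outside of a given set `I`, for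
downward closed `I` with comeager complement (Talagrand, Jalali-Naini); the proof is the one of
`Pool.Agent.TH774.KP.exists_partition` -/
theorem exists_blocks (I : Set (Set ℕ)) (hdown : ∀ A ∈ I, ∀ B : Set ℕ, B ⊆ A → B ∈ I)
    (hres : ∀ᶠ x in residual (ℕ → Bool), {n : ℕ | x n = true} ∉ I) :
    ∃ π : ℕ → ℕ, StrictMono π ∧ ∀ K : Set ℕ, K.Infinite →
      {n | ∃ k ∈ K, π k ≤ n ∧ n < π (k+1)} ∉ I := by
  obtain ⟨f, hfo, hfd, hfI⟩ := Pool.Agent.Y576.TD.exists_seq hres
  let g : ℕ → Set (ℕ → Bool) := fun k => ⋂ j ∈ Finset.range (k+1), f j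
  have hgo : ∀ k, IsOpen (g k) := fun k => isOpen_biInter_finset (fun j _ => hfo j)
  have hgd : ∀ k, Dense (g k) := by
    intro k
    have hmem : g k ∈ residual (ℕ → Bool) := by
      have : (⋂ j ∈ Finset.range (k+1), f j) ∈ residual (ℕ → Bool) := by
        rw [Filter.biInter_finset_mem]
        intro j _
        exact residual_of_dense_open (hfo j) (hfd j)
      exact this
    exact dense_of_mem_residual hmem
  choose! nxt hnxt w hw using fun k m => pattern_step' (hgo k) (hgd k) m
  let π : ℕ → ℕ := fun k => Nat.rec (motive := fun _ => ℕ) 0 (fun k m => nxt k m) k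
  have hπs : ∀ k, π (k+1) = nxt k (π k) := fun k => rfl
  have hπm : StrictMono π := strictMono_nat_of_lt_succ (fun k => by rw [hπs]; exact hnxt k (π k))
  refine ⟨π, hπm, fun K hK hmem => ?_⟩
  let Px : ℕ → Prop := fun n => ∃ k ∈ K, π k ≤ n ∧ n < π (k+1) ∧ w k (π k) n = true
  obtain ⟨x, hx⟩ : ∃ x : ℕ → Bool, ∀ n, x n = true ↔ Px n := by
    classical
    exact ⟨fun n => decide (Px n), fun n => decide_eq_true_iff⟩
  have hx1 : {n : ℕ | x n = true} ∈ I := by
    refine hdown _ hmem _ ?_
    intro n hn
    obtain ⟨k, hk, h1, h2, _⟩ := (hx n).1 hn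
    exact ⟨k, hk, h1, h2⟩
  have hx2 : x ∈ ⋂ n, f n := by
    rw [Set.mem_iInter]
    intro j
    obtain ⟨k, hk, hjk⟩ := hK.exists_gt j
    have hxg : x ∈ g k := by
      apply hw k (π k) x
      intro n hn1 hn2
      rw [← hπs] at hn2
      by_cases hwn : w k (π k) n = true
      · rw [hwn, hx]
        exact ⟨k, hk, hn1, hn2, hwn⟩
      · have h5 : x n = false := by
          rw [← Bool.not_eq_true, hx]
          rintro ⟨k', hk', h1, h2, h3⟩
          have : k' = k := by
            rcases lt_trichotomy k' k with h | h | h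
            · exact absurd (lt_of_lt_of_le h2 (hπm.monotone (Nat.succ_le_of_lt h))) (not_lt.2 hn1)
            · exact h
            · exact absurd (lt_of_lt_of_le hn2 (hπm.monotone (Nat.succ_le_of_lt h))) (not_lt.2 h1)
          subst this
          exact hwn h3
        rw [h5]
        simpa using hwn
    have := Set.mem_iInter₂.1 hxg j (Finset.mem_range.2 (by omega))
    exact this
  exact hfI hx2 hx1

/-- `D` is closed under subsets and under finite changes. -/
structure Tail (D : Set (Set ℕ)) : Prop where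
  down : ∀ A ∈ D, ∀ B : Set ℕ, B ⊆ A → B ∈ D
  tail : ∀ A B : Set ℕ, (∀ᶠ n in atTop, n ∈ A ↔ n ∈ B) → A ∈ D → B ∈ D

/-- the sequences whose set of ones is outside of `D` -/
def Out (D : Set (Set ℕ)) : Set (ℕ → Bool) := {x | {n : ℕ | x n = true} ∉ D}

theorem main {D : Set (Set ℕ)} (hD : Tail D)
    (hdet : ∀ σ, Determined (Pool.Agent.W885.TD.sat (Out D) (Pool.Agent.W885.TD.cc σ))) :
    (∃ A : Set ℕ, A ∈ D ∧ Aᶜ ∈ D) ∨
      ∃ A : ℕ → Set ℕ, (∀ i j, i ≠ j → Disjoint (A i) (A j)) ∧ ∀ j, A j ∉ D := by
  have hB : BaireMeasurableSet (Out D) := by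
    refine Pool.Agent.W885.TD.baire_of_determined (fun a b ha hab hb => ha ?_) hdet
    exact hD.down _ hb _ fun n hn => hab n hn
  have htail : ∀ x y : ℕ → Bool, (∀ᶠ n in atTop, x n = y n) → x ∈ Out D → y ∈ Out D := by
    intro x y hxy hx hy
    refine hx (hD.tail _ _ ?_ hy)
    filter_upwards [hxy] with n hn
    simp [hn]
  rcases Pool.Agent.Y576.TD.zero_one hB htail with h | h
  · right
    obtain ⟨π, hπ, hK⟩ := exists_blocks D hD.down h
    refine ⟨fun j => {n | ∃ k ∈ {k : ℕ | k.unpair.1 = j}, π k ≤ n ∧ n < π (k+1)},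
      fun i j hij => ?_, fun j => hK _ ?_⟩
    · rw [Set.disjoint_left]
      rintro n ⟨k, hk, h1, h2⟩ ⟨k', hk', h3, h4⟩
      have : k' = k := by
        rcases lt_trichotomy k' k with h | h | h
        · exact absurd (lt_of_lt_of_le h4 (hπ.monotone (Nat.succ_le_of_lt h))) (not_lt.2 h1)
        · exact h
        · exact absurd (lt_of_lt_of_le h2 (hπ.monotone (Nat.succ_le_of_lt h))) (not_lt.2 h3)
      subst this
      exact hij (hk.symm.trans hk')
    · refine Set.infinite_of_injective_forall_mem (f := fun i : ℕ => Nat.pair j i) ?_ ?_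
      · intro a b hab
        simpa using hab
      · intro i
        simp
  · left
    have h2 : ∀ᶠ x in residual (ℕ → Bool), flipH 0 x ∉ Out D :=
      (tendsto_residual_of_isOpenMap (flipH 0).continuous (flipH 0).isOpenMap).eventually h
    obtain ⟨x, hx1, hx2⟩ := (dense_of_mem_residual (h.and h2)).nonempty
    refine ⟨{n | x n = true}, not_not.1 hx1, ?_⟩
    have h3 := not_not.1 hx2
    have h4 : ({n : ℕ | x n = true}ᶜ : Set ℕ) = {n : ℕ | flipH 0 x n = true} := by
      ext n
      simp [flipH]
    rw [h4]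
    exact h3

end Pool.Agent.K9h58.MB
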