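import Pool.Agent.K9h58.MB.Main

set_option autoImplicit false
set_option linter.unusedSectionVars false

/-!
Exhaustive finitely additive set functions with values in topological groups.
-/

namespace Pool.Agent.K9h58.MB

open Set Filter Topology
open Pool.Agent.H685R3

variable {X : Type*} [MeasurableSpace X] {H : Type*} [AddCommGroup H]

def FinAdd (μ : Set X → H) : Prop :=
  ∀ A B, MeasurableSet A → MeasurableSet B → Disjoint A B → μ (A ∪ B) = μ A + μ B

def Exh [TopologicalSpace H] (μ : Set X → H) : Prop :=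
  ∀ E : ℕ → Set X, (∀ n, MeasurableSet (E n)) → (∀ i j, i ≠ j → Disjoint (E i) (E j)) →
    Tendsto (fun n => μ (E n)) atTop (𝓝 0)

def MD (μ : Set X → H) (E : ℕ → Set X) (W : Set H) : Set (Set ℕ) :=
  {A | ∃ m : ℕ, ∀ B : Set ℕ, (∀ n ∈ B, m ≤ n ∧ n ∈ A) → μ (⋃ n ∈ B, E n) ∈ W}

theorem tail_MD (μ : Set X → H) (E : ℕ → Set X) (W : Set H) : Tail (MD μ E W) where
  down := by
    rintro A ⟨m, hm⟩ B hBA
    exact ⟨m, fun C hC => hm C fun n hn => ⟨(hC n hn).1, hBA (hC n hn).2⟩⟩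
  tail := by
    rintro A B hAB ⟨m, hm⟩
    obtain ⟨N, hN⟩ := eventually_atTop.1 hAB
    refine ⟨max m N, fun C hC => hm C fun n hn => ?_⟩
    have h := hC n hn
    exact ⟨(le_max_left _ _).trans h.1, (hN n ((le_max_right _ _).trans h.1)).2 h.2⟩

theorem meas_bU {E : ℕ → Set X} (hE : ∀ n, MeasurableSet (E n)) (B : Set ℕ) :
    MeasurableSet (⋃ n ∈ B, E n) :=
  MeasurableSet.biUnion (Set.to_countable B) fun n _ => hE n

theorem disj_bU {E : ℕ → Set X} (hd : ∀ i j, i ≠ j → Disjoint (E i) (E j)) {B C : Set ℕ}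
    (h : Disjoint B C) : Disjoint (⋃ n ∈ B, E n) (⋃ n ∈ C, E n) := by
  rw [Set.disjoint_left]
  intro x hx hy
  simp only [mem_iUnion, exists_prop] at hx hy
  obtain ⟨i, hi, hxi⟩ := hx
  obtain ⟨j, hj, hxj⟩ := hy
  have hij : i ≠ j := by
    rintro rfl
    exact Set.disjoint_left.1 h hi hj
  exact Set.disjoint_left.1 (hd i j hij) hxi hxj

theorem mu_empty {μ : Set X → H} (hμ : FinAdd μ) : μ ∅ = 0 := by
  have h := hμ ∅ ∅ MeasurableSet.empty MeasurableSet.empty (Set.disjoint_empty _)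
  rw [Set.union_empty] at h
  exact left_eq_add.1 h

theorem mu_finset {μ : Set X → H} (hμ : FinAdd μ) {E : ℕ → Set X} (hE : ∀ n, MeasurableSet (E n))
    (hd : ∀ i j, i ≠ j → Disjoint (E i) (E j)) (F : Finset ℕ) :
    ∑ n ∈ F, μ (E n) = μ (⋃ n ∈ (F : Set ℕ), E n) := by
  classical
  induction F using Finset.induction_on with
  | empty => simp [mu_empty hμ]
  | insert a F ha ih =>
    rw [Finset.sum_insert ha, ih, Finset.coe_insert, Set.biUnion_insert]
    refine (hμ _ _ (hE a) (meas_bU hE _) ?_).symm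
    have := disj_bU hd (B := {a}) (C := (F : Set ℕ)) (by simpa using ha)
    simpa using this

variable [TopologicalSpace H] [IsTopologicalAddGroup H]

theorem small_tail {μ : Set X → H} (hμ : FinAdd μ) (hx : Exh μ) {E : ℕ → Set X}
    (hE : ∀ n, MeasurableSet (E n)) (hd : ∀ i j, i ≠ j → Disjoint (E i) (E j))
    (hdet : ∀ W ∈ 𝓝 (0 : H), ∀ σ, Determined (Pool.Agent.W885.TD.sat (Out (MD μ E W))
      (Pool.Agent.W885.TD.cc σ))) {W : Set H} (hW : W ∈ 𝓝 (0 : H)) :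
    ∃ m : ℕ, ∀ B : Set ℕ, (∀ n ∈ B, m ≤ n) → μ (⋃ n ∈ B, E n) ∈ W := by
  have h0 : Tendsto (fun p : H × H => p.1 + p.2) (𝓝 (0, 0)) (𝓝 0) := by
    have := (continuous_add (M := H)).tendsto (0, 0)
    simpa using this
  have h1 := h0 hW
  rw [nhds_prod_eq] at h1
  obtain ⟨W', hW', h2⟩ := mem_prod_self_iff.1 (mem_map.1 h1)
  rcases main (tail_MD μ E W') (hdet W' hW') with ⟨A, ⟨m, hm⟩, ⟨k, hk⟩⟩ | ⟨A, h3, h4⟩
  · refine ⟨max m k, fun B hB => ?_⟩
    have e : (⋃ n ∈ B, E n) = (⋃ n ∈ B ∩ A, E n) ∪ ⋃ n ∈ B ∩ Aᶜ, E n := by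
      rw [← Set.biUnion_union, ← Set.inter_union_distrib_left, Set.union_compl_self,
        Set.inter_univ]
    rw [e, hμ _ _ (meas_bU hE _) (meas_bU hE _) (disj_bU hd ?_)]
    · have h5 := hm (B ∩ A) fun n hn => ⟨(le_max_left _ _).trans (hB n hn.1), hn.2⟩
      have h6 := hk (B ∩ Aᶜ) fun n hn => ⟨(le_max_right _ _).trans (hB n hn.1), hn.2⟩
      exact h2 (Set.mk_mem_prod h5 h6)
    · exact Set.disjoint_left.2 fun n hn hn' => hn'.2 hn.2
  · exfalso
    have h5 : ∀ j, ∃ B : Set ℕ, (∀ n ∈ B, n ∈ A j) ∧ μ (⋃ n ∈ B, E n) ∉ W' := by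
      intro j
      by_contra hc
      push Not at hc
      exact h4 j ⟨0, fun B hB => hc B fun n hn => (hB n hn).2⟩
    choose B hB hB' using h5
    have h6 := hx (fun j => ⋃ n ∈ B j, E n) (fun j => meas_bU hE _) fun i j hij =>
      disj_bU hd (Set.disjoint_left.2 fun n hn hn' =>
        Set.disjoint_left.1 (h3 i j hij) (hB i n hn) (hB j n hn'))
    obtain ⟨j, hj⟩ := (h6.eventually hW').exists
    exact hB' j hj

theorem hasSum {μ : Set X → H} (hμ : FinAdd μ) (hx : Exh μ) {E : ℕ → Set X}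
    (hE : ∀ n, MeasurableSet (E n)) (hd : ∀ i j, i ≠ j → Disjoint (E i) (E j))
    (hdet : ∀ W ∈ 𝓝 (0 : H), ∀ σ, Determined (Pool.Agent.W885.TD.sat (Out (MD μ E W))
      (Pool.Agent.W885.TD.cc σ))) :
    HasSum (fun n => μ (E n)) (μ (⋃ n, E n)) := by
  have h1 : Tendsto (fun F : Finset ℕ => μ (⋃ n ∈ ((F : Set ℕ)ᶜ), E n)) atTop (𝓝 0) := by
    intro W hW
    obtain ⟨m, hm⟩ := small_tail hμ hx hE hd hdet hW
    rw [mem_map]
    filter_upwards [eventually_ge_atTop (Finset.range m)] with F hF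
    refine hm _ fun n hn => ?_
    by_contra hc
    exact hn (hF (Finset.mem_range.2 (not_le.1 hc)))
  have h2 : ∀ F : Finset ℕ, ∑ n ∈ F, μ (E n) = μ (⋃ n, E n) - μ (⋃ n ∈ ((F : Set ℕ)ᶜ), E n) := by
    intro F
    rw [mu_finset hμ hE hd, eq_sub_iff_add_eq, ← hμ _ _ (meas_bU hE _) (meas_bU hE _)
      (disj_bU hd disjoint_compl_right), ← Set.biUnion_union, Set.union_compl_self,
      Set.biUnion_univ]
  have h3 : Tendsto (fun F : Finset ℕ => μ (⋃ n, E n) - μ (⋃ n ∈ ((F : Set ℕ)ᶜ), E n)) atTop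
      (𝓝 (μ (⋃ n, E n) - 0)) := tendsto_const_nhds.sub h1
  rw [sub_zero] at h3
  show Tendsto _ _ _
  exact h3.congr fun F => (h2 F).symm

/-- signs for which the sum is long -/
theorem signs {E : Type*} [NormedAddCommGroup E] [InnerProductSpace ℝ E] (h : ℕ → E)
    (F : Finset ℕ) : ∃ S ⊆ F, ∑ n ∈ F, ‖h n‖ ^ 2 ≤ ‖∑ n ∈ S, h n - ∑ n ∈ F \ S, h n‖ ^ 2 := by
  classical
  induction F using Finset.induction_on with
  | empty => exact ⟨∅, Finset.Subset.refl _, by simp⟩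
  | insert a F ha ih =>
    obtain ⟨S, hS, h1⟩ := ih
    have haS : a ∉ S := fun h => ha (hS h)
    rw [Finset.sum_insert ha]
    rcases le_total 0 (inner ℝ (∑ n ∈ S, h n - ∑ n ∈ F \ S, h n) (h a)) with h2 | h2
    · refine ⟨insert a S, Finset.insert_subset_insert _ hS, ?_⟩
      have e1 : insert a F \ insert a S = F \ S := by
        ext n
        simp only [Finset.mem_sdiff, Finset.mem_insert]
        constructor
        · rintro ⟨h3 | h3, h4⟩
          · exact absurd (Or.inl h3) h4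
          · exact ⟨h3, fun h5 => h4 (Or.inr h5)⟩
        · rintro ⟨h3, h4⟩
          refine ⟨Or.inr h3, ?_⟩
          rintro (rfl | h5)
          · exact ha h3
          · exact h4 h5
      rw [e1, Finset.sum_insert haS]
      have e2 : h a + ∑ n ∈ S, h n - ∑ n ∈ F \ S, h n =
          (∑ n ∈ S, h n - ∑ n ∈ F \ S, h n) + h a := by abel
      rw [e2, norm_add_sq_real]
      linarith
    · refine ⟨S, hS.trans (Finset.subset_insert _ _), ?_⟩
      have e1 : insert a F \ S = insert a (F \ S) := Finset.insert_sdiff_of_notMem _ haS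
      rw [e1, Finset.sum_insert (fun h => ha (Finset.mem_sdiff.1 h).1)]
      have e2 : ∑ n ∈ S, h n - (h a + ∑ n ∈ F \ S, h n) =
          (∑ n ∈ S, h n - ∑ n ∈ F \ S, h n) - h a := by abel
      rw [e2, norm_sub_sq_real]
      linarith

theorem exh_of_bdd {E : Type*} [NormedAddCommGroup E] [InnerProductSpace ℝ E] {μ : Set X → E}
    (hμ : FinAdd μ) {C : ℝ} (hC : ∀ A, MeasurableSet A → ‖μ A‖ ≤ C) : Exh μ := by
  classical
  intro D hD hd
  have h1 : ∀ F : Finset ℕ, ∑ n ∈ F, ‖μ (D n)‖ ^ 2 ≤ (2 * C) ^ 2 := by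
    intro F
    obtain ⟨S, hS, h2⟩ := signs (fun n => μ (D n)) F
    refine h2.trans ?_
    have h3 : ‖∑ n ∈ S, μ (D n)‖ ≤ C := by
      rw [mu_finset hμ hD hd]
      exact hC _ (meas_bU hD _)
    have h4 : ‖∑ n ∈ F \ S, μ (D n)‖ ≤ C := by
      rw [mu_finset hμ hD hd]
      exact hC _ (meas_bU hD _)
    have h5 : ‖∑ n ∈ S, μ (D n) - ∑ n ∈ F \ S, μ (D n)‖ ≤ 2 * C :=
      (norm_sub_le _ _).trans (by linarith)
    exact pow_le_pow_left₀ (norm_nonneg _) h5 2
  have h2 : Summable fun n => ‖μ (D n)‖ ^ 2 :=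
    summable_of_sum_le (fun n => by positivity) h1
  have h3 := h2.tendsto_atTop_zero
  rw [tendsto_zero_iff_norm_tendsto_zero]
  have h4 : Tendsto (fun n => √(‖μ (D n)‖ ^ 2)) atTop (𝓝 (√0)) :=
    (Real.continuous_sqrt.tendsto 0).comp h3
  simpa [Real.sqrt_sq (norm_nonneg _)] using h4

end Pool.Agent.K9h58.MB
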